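import Pool.Agent.Helper11.LV.QDefs
import Pool.Agent.Helper31.Q3.J1a

/-!
# Project LV (MP_a499ba_nt), block D2: character sums over the family `Sub Q y`
-/

set_option autoImplicit false

namespace Pool.Agent.Helper80.LV

open Finset MeasureTheory Pool.Agent.QT Pool.Agent.Helper11.Q3 Pool.Agent.Helper11.LV Filter Topology

/-- the indicator of `p ∣ q` -/
private noncomputable def dl (p q : ℕ) : ℝ := if p ∣ q then 1 else 0

private lemma mem_OS {Q q : ℕ} : q ∈ OS Q ↔ (1 ≤ q ∧ q ≤ Q) ∧ Odd q ∧ Squarefree q := by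
  unfold OS
  rw [mem_filter, mem_Icc]

/-- the base: all `b` -/
private lemma base {C : ℝ} (hC : 0 < C)
    (ha : ∀ (Q a b : ℕ), Squarefree a → 1 < a → Odd b →
      |∑ q ∈ (OS Q).filter (fun q => b ∣ q), (jacobiSym a q : ℝ)| ≤ C * a * Real.sqrt Q) (Q a b : ℕ) (h1 : Squarefree a) (h2 : 1 < a) :
    |∑ q ∈ (OS Q).filter (fun q => b ∣ q), (jacobiSym a q : ℝ)| ≤ C * a * Real.sqrt Q := by
  rcases Nat.even_or_odd b with hb | hb
  · have e : (OS Q).filter (fun q => b ∣ q) = ∅ := by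
      apply filter_eq_empty_iff.2
      intro q hq hd
      have h3 := (mem_OS.1 hq).2.1
      rw [← Nat.not_even_iff_odd] at h3
      exact h3 (hb.trans_dvd hd)
    rw [e, sum_empty, abs_zero]
    positivity
  · exact ha Q a b h1 h2 hb

/-- the factors of the primes of the square part -/
private lemma step2 {C : ℝ} (hC : 0 < C)
    (ha : ∀ (Q a b : ℕ), Squarefree a → 1 < a → Odd b →
      |∑ q ∈ (OS Q).filter (fun q => b ∣ q), (jacobiSym a q : ℝ)| ≤ C * a * Real.sqrt Q) (Q a : ℕ) (h1 : Squarefree a) (h2 : 1 < a)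
    (S2 : Finset ℕ) : ∀ b : ℕ,
    |∑ q ∈ (OS Q).filter (fun q => b ∣ q), (jacobiSym a q : ℝ) * ∏ p ∈ S2, (1 - dl p q)| ≤ C * a * Real.sqrt Q * 2 ^ S2.card := by
  classical
  induction S2 using Finset.induction_on with
  | empty =>
    intro b
    simpa using base hC ha Q a b h1 h2
  | insert p S hp ih =>
    intro b
    have e : ∑ q ∈ (OS Q).filter (fun q => b ∣ q), (jacobiSym a q : ℝ) * ∏ r ∈ insert p S, (1 - dl r q) =
        ∑ q ∈ (OS Q).filter (fun q => b ∣ q), (jacobiSym a q : ℝ) * ∏ r ∈ S, (1 - dl r q) -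
        ∑ q ∈ (OS Q).filter (fun q => Nat.lcm b p ∣ q), (jacobiSym a q : ℝ) * ∏ r ∈ S, (1 - dl r q) := by
      have e1 : (OS Q).filter (fun q => Nat.lcm b p ∣ q) = ((OS Q).filter (fun q => b ∣ q)).filter (fun q => p ∣ q) := by
        rw [filter_filter]
        apply filter_congr
        intro q _
        exact Nat.lcm_dvd_iff
      rw [e1, sum_filter (p := fun q => p ∣ q), ← sum_sub_distrib]
      apply sum_congr rfl
      intro q _
      rw [prod_insert hp]
      unfold dl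
      split_ifs <;> ring
    rw [e, card_insert_of_notMem hp, pow_succ]
    refine (abs_sub _ _).trans ?_
    have q1 := ih b
    have q2 := ih (Nat.lcm b p)
    linarith

/-- the factors of the small primes -/
private lemma step1 {C : ℝ} (hC : 0 < C)
    (ha : ∀ (Q a b : ℕ), Squarefree a → 1 < a → Odd b →
      |∑ q ∈ (OS Q).filter (fun q => b ∣ q), (jacobiSym a q : ℝ)| ≤ C * a * Real.sqrt Q) (Q : ℕ) (S2 S1 : Finset ℕ) :
    (∀ p ∈ S1, p.Prime) → ∀ a b : ℕ, Squarefree a → 1 < a → (∀ p ∈ S1, ¬ p ∣ a) →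
    |∑ q ∈ (OS Q).filter (fun q => b ∣ q), (jacobiSym a q : ℝ) * (∏ p ∈ S1, (1 - dl p q + (jacobiSym p q : ℝ))) * ∏ p ∈ S2, (1 - dl p q)| ≤
      C * a * Real.sqrt Q * 2 ^ S2.card * ∏ p ∈ S1, (2 + (p : ℝ)) := by
  classical
  induction S1 using Finset.induction_on with
  | empty =>
    intro _ a b h1 h2 _
    simpa using step2 hC ha Q a h1 h2 S2 b
  | insert p S hp ih =>
    intro hS a b h1 h2 h3
    have hpp : p.Prime := hS p (mem_insert_self _ _)
    have hS' : ∀ r ∈ S, r.Prime := fun r hr => hS r (mem_insert_of_mem hr)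
    have h3' : ∀ r ∈ S, ¬ r ∣ a := fun r hr => h3 r (mem_insert_of_mem hr)
    have hpa : ¬ p ∣ a := h3 p (mem_insert_self _ _)
    have e : ∑ q ∈ (OS Q).filter (fun q => b ∣ q), (jacobiSym a q : ℝ) * (∏ r ∈ insert p S, (1 - dl r q + (jacobiSym r q : ℝ))) * ∏ r ∈ S2, (1 - dl r q) =
        ∑ q ∈ (OS Q).filter (fun q => b ∣ q), (jacobiSym a q : ℝ) * (∏ r ∈ S, (1 - dl r q + (jacobiSym r q : ℝ))) * ∏ r ∈ S2, (1 - dl r q) -
        ∑ q ∈ (OS Q).filter (fun q => Nat.lcm b p ∣ q), (jacobiSym a q : ℝ) * (∏ r ∈ S, (1 - dl r q + (jacobiSym r q : ℝ))) * ∏ r ∈ S2, (1 - dl r q) +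
        ∑ q ∈ (OS Q).filter (fun q => b ∣ q), (jacobiSym (a * p : ℕ) q : ℝ) * (∏ r ∈ S, (1 - dl r q + (jacobiSym r q : ℝ))) * ∏ r ∈ S2, (1 - dl r q) := by
      have e1 : (OS Q).filter (fun q => Nat.lcm b p ∣ q) = ((OS Q).filter (fun q => b ∣ q)).filter (fun q => p ∣ q) := by
        rw [filter_filter]
        apply filter_congr
        intro q _
        exact Nat.lcm_dvd_iff
      rw [e1, sum_filter (p := fun q => p ∣ q), ← sum_sub_distrib, ← sum_add_distrib]
      apply sum_congr rfl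
      intro q _
      rw [prod_insert hp]
      have e2 : (jacobiSym (a * p : ℕ) q : ℝ) = (jacobiSym a q : ℝ) * (jacobiSym p q : ℝ) := by
        push_cast
        rw [jacobiSym.mul_left]
        push_cast
        ring
      rw [e2]
      unfold dl
      split_ifs <;> ring
    have hcop : Nat.Coprime a p := ((Nat.Prime.coprime_iff_not_dvd hpp).2 hpa).symm
    have h4 : Squarefree (a * p) := (Nat.squarefree_mul hcop).2 ⟨h1, hpp.prime.squarefree⟩
    have h5 : 1 < a * p := lt_of_lt_of_le h2 (Nat.le_mul_of_pos_right _ hpp.pos)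
    have h6 : ∀ r ∈ S, ¬ r ∣ a * p := by
      intro r hr hd
      rcases (Nat.Prime.dvd_mul (hS' r hr)).1 hd with h | h
      · exact h3' r hr h
      · have : r = p := (Nat.prime_dvd_prime_iff_eq (hS' r hr) hpp).1 h
        exact hp (this ▸ hr)
    have q1 := ih hS' a b h1 h2 h3'
    have q2 := ih hS' a (Nat.lcm b p) h1 h2 h3'
    have q3 := ih hS' (a * p) b h4 h5 h6
    rw [e, prod_insert hp]
    refine (abs_add_le _ _).trans ?_
    refine (add_le_add (abs_sub _ _) le_rfl).trans ?_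
    push_cast at q3 ⊢
    calc _ ≤ C * a * Real.sqrt Q * 2 ^ S2.card * ∏ p ∈ S, (2 + (p : ℝ)) + C * a * Real.sqrt Q * 2 ^ S2.card * ∏ p ∈ S, (2 + (p : ℝ)) +
          C * (a * p) * Real.sqrt Q * 2 ^ S2.card * ∏ p ∈ S, (2 + (p : ℝ)) := add_le_add (add_le_add q1 q2) q3
      _ = _ := by ring

private lemma jac_dvd {p q : ℕ} (hq : q ≠ 0) (hp : p.Prime) (h : p ∣ q) : jacobiSym p q = 0 := by
  have : NeZero q := ⟨hq⟩
  rw [jacobiSym.eq_zero_iff_not_coprime]
  intro h1
  have h2 : p ∣ Int.gcd (p : ℤ) q := by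
    rw [Int.gcd_natCast_natCast]
    exact Nat.dvd_gcd dvd_rfl h
  rw [h1] at h2
  exact hp.one_lt.ne' (Nat.dvd_one.1 h2)

/-- the squares -/
private lemma sq_part {q k : ℕ} (hq : q ≠ 0) (hk : k ≠ 0) :
    (jacobiSym k q : ℝ) ^ 2 = ∏ p ∈ k.primeFactors, (1 - dl p q) := by
  have : NeZero q := ⟨hq⟩
  by_cases h : Nat.Coprime k q
  · have h1 : jacobiSym k q ^ 2 = 1 := by
      apply jacobiSym.sq_one
      rw [Int.gcd_natCast_natCast]
      exact h
    have h2 : (jacobiSym k q : ℝ) ^ 2 = 1 := by exact_mod_cast h1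
    rw [h2]
    symm
    apply prod_eq_one
    intro p hp
    have hpp := Nat.prime_of_mem_primeFactors hp
    have hpk := Nat.dvd_of_mem_primeFactors hp
    unfold dl
    rw [if_neg, sub_zero]
    intro hd
    exact Nat.not_coprime_of_dvd_of_dvd hpp.one_lt hpk hd h
  · have h1 : jacobiSym k q = 0 := by
      rw [jacobiSym.eq_zero_iff_not_coprime, Int.gcd_natCast_natCast]
      exact h
    rw [h1]
    obtain ⟨p, hp, hpk, hpq⟩ := Nat.Prime.not_coprime_iff_dvd.1 h
    symm
    rw [prod_eq_zero (i := p)]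
    · norm_num
    · exact Nat.mem_primeFactors.2 ⟨hp, hpk, hk⟩
    · unfold dl
      rw [if_pos hpq, sub_self]

/-- the indicator of the family -/
private lemma ind {q y : ℕ} (hq : q ≠ 0) :
    ∏ p ∈ Pr y, (1 - dl p q + (jacobiSym p q : ℝ)) = if (∀ p ∈ Pr y, jacobiSym (p : ℤ) q = 1) then (2 : ℝ) ^ (Pr y).card else 0 := by
  have : NeZero q := ⟨hq⟩
  split_ifs with h
  · rw [← prod_const]
    apply prod_congr rfl
    intro p hp
    have h1 := h p hp
    have hpp := (mem_Pr.1 hp).1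
    have h2 : ¬ p ∣ q := by
      intro hd
      rw [jac_dvd hq hpp hd] at h1
      norm_num at h1
    unfold dl
    rw [if_neg h2, h1]
    norm_num
  · push Not at h
    obtain ⟨p, hp, h1⟩ := h
    apply prod_eq_zero hp
    have hpp := (mem_Pr.1 hp).1
    by_cases hd : p ∣ q
    · unfold dl
      rw [if_pos hd, jac_dvd hq hpp hd]
      norm_num
    · have hc : Int.gcd (p : ℤ) q = 1 := by
        rw [Int.gcd_natCast_natCast]
        exact (Nat.Prime.coprime_iff_not_dvd hpp).2 hd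
      have h2 : jacobiSym p q ^ 2 = 1 := jacobiSym.sq_one hc
      rcases mul_self_eq_one_iff.1 ((pow_two _).symm.trans h2) with h3 | h3
      · exact absurd h3 h1
      · unfold dl
        rw [if_neg hd, h3]
        norm_num

/-- D2 -/
theorem sub_corr : ∃ C : ℝ, 0 < C ∧ ∀ Q y m : ℕ, 1 ≤ m → Rou y m → ¬ IsSquare m →
    ‖∑ q ∈ Sub Q y, ja q m‖ ≤ C * 32 ^ y * (m : ℝ) ^ 2 * Real.sqrt Q := by
  classical
  obtain ⟨C, hC, ha⟩ := Pool.Agent.Helper31.Q3.j1a
  refine ⟨C, hC, fun Q y m hm hr hsq => ?_⟩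
  obtain ⟨a, k, hak, hsa⟩ := Nat.sq_mul_squarefree m
  have hk0 : k ≠ 0 := by
    rintro rfl
    rw [zero_pow (by norm_num), zero_mul] at hak
    omega
  have ha0 : a ≠ 0 := by
    rintro rfl
    rw [mul_zero] at hak
    omega
  have ha1 : 1 < a := by
    rcases Nat.lt_or_ge 1 a with h | h
    · exact h
    · have : a = 1 := by omega
      exact absurd ⟨k, by rw [← hak, this, mul_one, pow_two]⟩ hsq
  have hpa : ∀ p ∈ Pr y, ¬ p ∣ a := by
    intro p hp hd
    have h1 := hr p (mem_Pr.1 hp).1 (hak ▸ hd.mul_left _)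
    have h2 := (mem_Pr.1 hp).2
    omega
  have hmain := step1 hC ha Q k.primeFactors (Pr y) (fun p hp => (mem_Pr.1 hp).1) a 1 hsa ha1 hpa
  have e0 : (OS Q).filter (fun q => 1 ∣ q) = OS Q := filter_true_of_mem fun q _ => one_dvd q
  rw [e0] at hmain
  have e1 : ∑ q ∈ OS Q, (jacobiSym a q : ℝ) * (∏ p ∈ Pr y, (1 - dl p q + (jacobiSym p q : ℝ))) * ∏ p ∈ k.primeFactors, (1 - dl p q) =
      2 ^ (Pr y).card * ∑ q ∈ Sub Q y, (jacobiSym m q : ℝ) := by
    unfold Pool.Agent.Helper11.LV.Sub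
    rw [sum_filter, mul_sum]
    apply sum_congr rfl
    intro q hq
    have hq0 : q ≠ 0 := by
      have := (mem_OS.1 hq).1.1
      omega
    rw [ind hq0, ← sq_part hq0 hk0]
    have e2 : (jacobiSym m q : ℝ) = (jacobiSym k q : ℝ) ^ 2 * (jacobiSym a q : ℝ) := by
      rw [← hak]
      push_cast
      rw [jacobiSym.mul_left, jacobiSym.pow_left]
      push_cast
      ring
    rw [e2]
    split_ifs <;> ring
  rw [e1] at hmain
  have hnorm : ‖∑ q ∈ Sub Q y, ja q m‖ = |∑ q ∈ Sub Q y, (jacobiSym m q : ℝ)| := by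
    have : ∑ q ∈ Sub Q y, ja q m = ((∑ q ∈ Sub Q y, (jacobiSym m q : ℝ) : ℝ) : ℂ) := by
      unfold ja
      push_cast
      rfl
    rw [this, Complex.norm_real, Real.norm_eq_abs]
  rw [hnorm]
  rw [abs_mul, abs_of_pos (by positivity : (0 : ℝ) < 2 ^ (Pr y).card)] at hmain
  -- the product over the small primes
  have hprod : ∏ p ∈ Pr y, (2 + (p : ℝ)) ≤ 2 ^ (Pr y).card * 4 ^ y := by
    have h1 : ∏ p ∈ Pr y, (2 + (p : ℝ)) ≤ ∏ p ∈ Pr y, (2 * (p : ℝ)) := by
      apply prod_le_prod (fun p _ => by positivity)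
      intro p hp
      have : (2 : ℝ) ≤ p := by exact_mod_cast (mem_Pr.1 hp).1.two_le
      linarith
    have h2 : ∏ p ∈ Pr y, (2 * (p : ℝ)) = 2 ^ (Pr y).card * ∏ p ∈ Pr y, (p : ℝ) := by
      rw [prod_mul_distrib, prod_const]
    have h3 : ∏ p ∈ Pr y, (p : ℝ) ≤ 4 ^ y := by
      have h4 := primorial_le_four_pow y
      have h5 : ∏ p ∈ Pr y, p = primorial y := by
        unfold primorial
        apply prod_congr _ fun _ _ => rfl
        ext p
        simp only [mem_Pr, mem_filter, mem_range]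
        constructor
        · rintro ⟨h1, h2⟩
          exact ⟨by omega, h1⟩
        · rintro ⟨h1, h2⟩
          exact ⟨h2, by omega⟩
      rw [← Nat.cast_prod, h5]
      exact_mod_cast h4
    rw [h2] at h1
    exact h1.trans (mul_le_mul_of_nonneg_left h3 (by positivity))
  have hsqrt : 0 ≤ Real.sqrt (Q : ℝ) := Real.sqrt_nonneg _
  have hk2 : (2 : ℝ) ^ k.primeFactors.card ≤ k := by
    have h1 : 2 ^ k.primeFactors.card ≤ ∏ p ∈ k.primeFactors, p := by
      rw [← prod_const]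
      exact prod_le_prod' fun p hp => (Nat.prime_of_mem_primeFactors hp).two_le
    have h2 : ∏ p ∈ k.primeFactors, p ≤ k := Nat.le_of_dvd (Nat.pos_of_ne_zero hk0) (Nat.prod_primeFactors_dvd k)
    exact_mod_cast h1.trans h2
  have hcalc : 2 ^ (Pr y).card * |∑ q ∈ Sub Q y, (jacobiSym m q : ℝ)| ≤ 2 ^ (Pr y).card * (C * 32 ^ y * (m : ℝ) ^ 2 * Real.sqrt Q) := by
    refine hmain.trans ?_
    have hak' : (a : ℝ) * k ≤ (m : ℝ) ^ 2 := by
      have h1 : a * k ≤ m ^ 2 := by
        have h2 : a ≤ m := by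
          rw [← hak]
          exact Nat.le_mul_of_pos_left _ (by positivity)
        have h3 : k ≤ m := by
          rw [← hak, pow_two, mul_assoc]
          exact Nat.le_mul_of_pos_right _ (Nat.mul_pos (Nat.pos_of_ne_zero hk0) (Nat.pos_of_ne_zero ha0))
        rw [pow_two]
        exact Nat.mul_le_mul h2 h3
      exact_mod_cast h1
    have h432 : (4 : ℝ) ^ y ≤ 32 ^ y := pow_le_pow_left₀ (by norm_num) (by norm_num) y
    calc C * a * Real.sqrt Q * 2 ^ k.primeFactors.card * ∏ p ∈ Pr y, (2 + (p : ℝ))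
        ≤ C * a * Real.sqrt Q * k * (2 ^ (Pr y).card * 4 ^ y) := by
          apply mul_le_mul _ hprod (prod_nonneg fun p _ => by positivity) (by positivity)
          exact mul_le_mul_of_nonneg_left hk2 (by positivity)
      _ = 2 ^ (Pr y).card * (C * 4 ^ y * (a * k) * Real.sqrt Q) := by ring
      _ ≤ 2 ^ (Pr y).card * (C * 32 ^ y * (m : ℝ) ^ 2 * Real.sqrt Q) := by
          apply mul_le_mul_of_nonneg_left _ (by positivity)
          apply mul_le_mul_of_nonneg_right _ hsqrt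
          apply mul_le_mul _ hak' (by positivity) (by positivity)
          exact mul_le_mul_of_nonneg_left h432 hC.le
  exact le_of_mul_le_mul_left hcalc (by positivity)

end Pool.Agent.Helper80.LV
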